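import Mathlib

/-!
# A Baire category argument for the super alternative Daugavet property

If countably many sets `A n` in the unit ball are such that for every `x` in the unit sphere
`sup_{y ∈ A n, |θ| = 1} ‖x + θ y‖ = 2`, then there is a norm-one functional `f` with
`sup_{A n} |f| > r` for every `n` (`r < 1` given).
-/

set_option autoImplicit false

open Filter Topology Metric

namespace Pool.Agent.N311.SAD

variable {𝕜 X : Type*} [RCLike 𝕜] [NormedAddCommGroup X] [NormedSpace 𝕜 X]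

/-- Points at which every norming functional is almost norming (up to rotation) on `A`. -/
def G (𝕜 : Type*) {X : Type*} [RCLike 𝕜] [NormedAddCommGroup X] [NormedSpace 𝕜 X]
    (A : Set X) (r : ℝ) : Set X :=
  {z | ∃ y ∈ A, ∃ θ : 𝕜, ‖θ‖ = 1 ∧ ∃ t : ℝ, 0 < t ∧ t * r < ‖z‖ - ‖z - (t : 𝕜) • θ • y‖}

theorem G_open (A : Set X) (r : ℝ) : IsOpen (G 𝕜 A r) := by
  have : G 𝕜 A r = ⋃ y ∈ A, ⋃ θ : 𝕜, ⋃ _ : ‖θ‖ = 1, ⋃ t : ℝ, ⋃ _ : 0 < t,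
      {z : X | t * r < ‖z‖ - ‖z - (t : 𝕜) • θ • y‖} := by
    ext z
    simp only [G, Set.mem_ofPred_eq, Set.mem_iUnion, exists_prop]
  rw [this]
  refine isOpen_biUnion fun y _ => isOpen_iUnion fun θ => isOpen_iUnion fun _ =>
    isOpen_iUnion fun t => isOpen_iUnion fun _ => ?_
  exact isOpen_lt continuous_const
    (continuous_norm.sub (continuous_norm.comp (continuous_id.sub continuous_const)))

/-- convexity: if `‖x + y‖ > 2 - ε` with `‖y‖ ≤ 1`, then `‖x + s y‖ > 1 + s - ε`. -/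
theorem conv_aux {x y : X} (hy : ‖y‖ ≤ 1) {ε s : ℝ} (hs1 : s ≤ 1)
    (h : 2 - ε < ‖x + y‖) : 1 + s - ε < ‖x + (s : 𝕜) • y‖ := by
  have h1 : x + y = (x + (s : 𝕜) • y) + ((1 - s : ℝ) : 𝕜) • y := by
    push_cast
    rw [sub_smul, one_smul]; abel
  have h2 : ‖x + y‖ ≤ ‖x + (s : 𝕜) • y‖ + (1 - s) * ‖y‖ := by
    rw [h1]
    refine (norm_add_le _ _).trans ?_
    rw [norm_smul, RCLike.norm_ofReal, abs_of_nonneg (by linarith)]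
  have h3 : (1 - s) * ‖y‖ ≤ (1 - s) * 1 := mul_le_mul_of_nonneg_left hy (by linarith)
  linarith

theorem G_dense (A : Set X) (hA : ∀ y ∈ A, ‖y‖ ≤ 1)
    (h : ∀ x : X, ‖x‖ = 1 → ∀ ε : ℝ, 0 < ε → ∃ y ∈ A, ∃ θ : 𝕜, ‖θ‖ = 1 ∧ 2 - ε < ‖x + θ • y‖)
    (hX : ∃ x : X, x ≠ 0) {r : ℝ} (hr : r < 1) : Dense (G 𝕜 A r) := by
  have key : ∀ x : X, x ≠ 0 → x ∈ closure (G 𝕜 A r) := by
    intro x hx
    rw [Metric.mem_closure_iff]
    intro ρ hρ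
    have hn : 0 < ‖x‖ := norm_pos_iff.2 hx
    obtain ⟨s, hs, hs1, hsρ⟩ : ∃ s : ℝ, 0 < s ∧ s ≤ 1 ∧ ‖x‖ * s < ρ := by
      refine ⟨min 1 (ρ / (2 * ‖x‖)), lt_min one_pos (by positivity), min_le_left _ _, ?_⟩
      calc ‖x‖ * min 1 (ρ / (2 * ‖x‖)) ≤ ‖x‖ * (ρ / (2 * ‖x‖)) :=
            mul_le_mul_of_nonneg_left (min_le_right _ _) hn.le
        _ = ρ / 2 := by field_simp
        _ < ρ := by linarith
    set u : X := ((‖x‖⁻¹ : ℝ) : 𝕜) • x with hu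
    have hu1 : ‖u‖ = 1 := by
      rw [hu, norm_smul, RCLike.norm_ofReal, abs_of_pos (inv_pos.2 hn), inv_mul_cancel₀ hn.ne']
    have hxu : ((‖x‖ : ℝ) : 𝕜) • u = x := by
      rw [hu, smul_smul, ← RCLike.ofReal_mul, mul_inv_cancel₀ hn.ne', RCLike.ofReal_one, one_smul]
    obtain ⟨y, hyA, θ, hθ, hy⟩ := h u hu1 (s * (1 - r)) (mul_pos hs (by linarith))
    have hy1 := hA y hyA
    have hθy : ‖θ • y‖ ≤ 1 := by rw [norm_smul, hθ, one_mul]; exact hy1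
    have h1 := conv_aux (𝕜 := 𝕜) hθy hs1 hy
    have hns : 0 < ‖x‖ * s := by positivity
    have e1 : (((‖x‖ * s : ℝ)) : 𝕜) • θ • y = ((‖x‖ : ℝ) : 𝕜) • ((s : 𝕜) • θ • y) := by
      rw [RCLike.ofReal_mul, mul_smul]
    refine ⟨((‖x‖ : ℝ) : 𝕜) • (u + (s : 𝕜) • θ • y),
      ⟨y, hyA, θ, hθ, ‖x‖ * s, hns, ?_⟩, ?_⟩
    · have h2 : ((‖x‖ : ℝ) : 𝕜) • (u + (s : 𝕜) • θ • y) - (((‖x‖ * s : ℝ)) : 𝕜) • θ • y = x := by
        rw [smul_add, hxu, e1]; abel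
      rw [h2, norm_smul, RCLike.norm_ofReal, abs_of_pos hn]
      nlinarith [mul_pos hn (sub_pos.2 h1)]
    · have h2 : ((‖x‖ : ℝ) : 𝕜) • (u + (s : 𝕜) • θ • y) = x + (((‖x‖ * s : ℝ)) : 𝕜) • θ • y := by
        rw [smul_add, hxu, e1]
      rw [h2, dist_eq_norm]
      have h3 : x - (x + (((‖x‖ * s : ℝ)) : 𝕜) • θ • y) = -((((‖x‖ * s : ℝ)) : 𝕜) • θ • y) := by
        abel
      rw [h3, norm_neg, norm_smul, RCLike.norm_ofReal, abs_of_pos hns]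
      calc ‖x‖ * s * ‖θ • y‖ ≤ ‖x‖ * s * 1 := mul_le_mul_of_nonneg_left hθy hns.le
        _ < ρ := by linarith
  intro x
  by_cases hx : x = 0
  · obtain ⟨w, hw⟩ := hX
    have hcl : IsClosed (closure (G 𝕜 A r)) := isClosed_closure
    have h0 : Tendsto (fun n : ℕ => ((1 / ((n : ℝ) + 1) : ℝ) : 𝕜)) atTop (𝓝 ((0 : ℝ) : 𝕜)) :=
      (RCLike.continuous_ofReal.tendsto 0).comp tendsto_one_div_add_atTop_nhds_zero_nat
    have h1 : Tendsto (fun n : ℕ => ((1 / ((n : ℝ) + 1) : ℝ) : 𝕜) • w) atTop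
        (𝓝 (((0 : ℝ) : 𝕜) • w)) := h0.smul_const w
    rw [RCLike.ofReal_zero, zero_smul] at h1
    rw [hx]
    refine hcl.mem_of_tendsto h1 (Eventually.of_forall fun n => key _ ?_)
    refine smul_ne_zero ?_ hw
    rw [Ne, RCLike.ofReal_eq_zero]
    positivity
  · exact key x hx

theorem exists_functional [CompleteSpace X] (hX : ∃ x : X, x ≠ 0) {ι : Type*} [Countable ι]
    (A : ι → Set X) (hA : ∀ n, ∀ y ∈ A n, ‖y‖ ≤ 1)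
    (h : ∀ n, ∀ x : X, ‖x‖ = 1 → ∀ ε : ℝ, 0 < ε →
      ∃ y ∈ A n, ∃ θ : 𝕜, ‖θ‖ = 1 ∧ 2 - ε < ‖x + θ • y‖) {r : ℝ} (hr : r < 1) :
    ∃ f : StrongDual 𝕜 X, ‖f‖ = 1 ∧ ∀ n, ∃ y ∈ A n, r < ‖f y‖ := by
  have hd : Dense (⋂ n, G 𝕜 (A n) r) :=
    dense_iInter_of_isOpen (fun n => G_open _ _) (fun n => G_dense (A n) (hA n) (h n) hX hr)
  obtain ⟨w, hw⟩ := hX
  obtain ⟨z, hz, hzn⟩ : ∃ z ∈ ⋂ n, G 𝕜 (A n) r, z ≠ 0 := by
    have hop : IsOpen {z : X | z ≠ 0} := isOpen_ne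
    obtain ⟨z, hz⟩ := hd.inter_open_nonempty _ hop ⟨w, hw⟩
    exact ⟨z, hz.2, hz.1⟩
  obtain ⟨f, hf1, hfz⟩ := exists_dual_vector 𝕜 z (norm_ne_zero_iff.2 hzn)
  refine ⟨f, hf1, fun n => ?_⟩
  obtain ⟨y, hyA, θ, hθ, t, ht, hh⟩ := Set.mem_iInter.1 hz n
  refine ⟨y, hyA, ?_⟩
  have hle : ∀ v : X, ‖f v‖ ≤ ‖v‖ := fun v => by
    have := f.le_opNorm v
    rwa [hf1, one_mul] at this
  have h1 := hle (z - (t : 𝕜) • θ • y)
  rw [map_sub, map_smul, map_smul, hfz] at h1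
  have h2 : ‖z‖ ≤ ‖((‖z‖ : ℝ) : 𝕜) - (t : 𝕜) • θ • f y‖ + t * ‖f y‖ := by
    have h3 : ‖((‖z‖ : ℝ) : 𝕜)‖ ≤ ‖((‖z‖ : ℝ) : 𝕜) - (t : 𝕜) • θ • f y‖ + ‖(t : 𝕜) • θ • f y‖ := by
      have := norm_add_le (((‖z‖ : ℝ) : 𝕜) - (t : 𝕜) • θ • f y) ((t : 𝕜) • θ • f y)
      rwa [sub_add_cancel] at this
    rw [RCLike.norm_ofReal, abs_of_nonneg (norm_nonneg z), norm_smul, norm_smul, hθ, one_mul,
      RCLike.norm_ofReal, abs_of_pos ht] at h3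
    exact h3
  have h4 : t * r < t * ‖f y‖ := by linarith
  exact lt_of_mul_lt_mul_left h4 ht.le

end Pool.Agent.N311.SAD
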