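import Mathlib

/-!
# The core contradiction

A functional `f` dominated by an absolutely convergent series of coordinate functionals cannot
be almost norming on every coordinate box of the unit ball.
-/

set_option autoImplicit false

open Filter Topology Metric

namespace Pool.Agent.N311.SAD

variable {𝕜 X : Type*} [RCLike 𝕜] [NormedAddCommGroup X] [NormedSpace 𝕜 X]

section
variable {φ : ℕ → StrongDual 𝕜 X} {w : ℕ → ℝ}

theorem split (hs : ∀ x, Summable fun i => w i * ‖φ i x‖) (x : X) (N : ℕ) :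
    ∑' i, w i * ‖φ i x‖ =
      ∑ i ∈ Finset.range N, w i * ‖φ i x‖ + ∑' i, w (i + N) * ‖φ (i + N) x‖ :=
  ((hs x).sum_add_tsum_nat_add N).symm

theorem tsum_le3 {a b c : ℕ → ℝ} (ha : Summable a) (hb : Summable b) (hc : Summable c) (r : ℝ)
    (h : ∀ i, c i ≤ r * a i + b i) : ∑' i, c i ≤ r * ∑' i, a i + ∑' i, b i := by
  rw [← tsum_mul_left, ← (ha.mul_left r).tsum_add hb]
  exact hc.tsum_le_tsum h ((ha.mul_left r).add hb)

theorem tail_summable (hs : ∀ x, Summable fun i => w i * ‖φ i x‖) (x : X) (N : ℕ) :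
    Summable fun i => w (i + N) * ‖φ (i + N) x‖ :=
  (summable_nat_add_iff N).2 (hs x)

theorem exists_tail (hs : ∀ x, Summable fun i => w i * ‖φ i x‖) (x : X) {η : ℝ} (hη : 0 < η)
    (M : ℕ) : ∃ N : ℕ, M ≤ N ∧ ∑' i, w (i + N) * ‖φ (i + N) x‖ < η := by
  have h := (hs x).hasSum.tendsto_sum_nat
  rw [Metric.tendsto_atTop] at h
  obtain ⟨N, hN⟩ := h η hη
  refine ⟨max M N, le_max_left _ _, ?_⟩
  have h1 := hN (max M N) (le_max_right _ _)
  rw [Real.dist_eq, split hs x (max M N), sub_add_cancel_left, abs_neg] at h1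
  exact (le_abs_self _).trans_lt h1

theorem core (hw : ∀ i, 0 ≤ w i) (hs : ∀ x, Summable fun i => w i * ‖φ i x‖) {C : ℝ}
    (hC : ∀ x, ‖x‖ ≤ 1 → ∑' i, w i * ‖φ i x‖ ≤ C) (f : StrongDual 𝕜 X) (hf1 : ‖f‖ ≤ 1)
    (hfw : ∀ x, ‖f x‖ ≤ ∑' i, w i * ‖φ i x‖)
    (hg : ∀ x, ‖x‖ ≤ 1 → ∀ (N : ℕ) (δ : ℝ), 0 < δ →
      ∃ y, ‖y‖ ≤ 1 ∧ (∀ i < N, ‖φ i (y - x)‖ < δ) ∧ 3 / 4 < ‖f y‖) : False := by
  set p : X → ℝ := fun x => ∑' i, w i * ‖φ i x‖ with hp
  have hp0 : ∀ x, 0 ≤ p x := fun x => tsum_nonneg fun i => mul_nonneg (hw _) (norm_nonneg _)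
  let B : ℕ → Set X := fun N => {x | ‖x‖ ≤ 1 ∧ ∀ i < N, ‖φ i x‖ < 1 / ((N : ℝ) + 1)}
  have hB0 : ∀ N, (0 : X) ∈ B N := fun N => by
    refine ⟨by simp, fun i _ => ?_⟩
    rw [map_zero, norm_zero]
    positivity
  have hBmono : ∀ {M N : ℕ}, M ≤ N → B N ⊆ B M := by
    intro M N hMN x hx
    refine ⟨hx.1, fun i hi => (hx.2 i (hi.trans_le hMN)).trans_le ?_⟩
    have : (M : ℝ) ≤ N := by exact_mod_cast hMN
    exact one_div_le_one_div_of_le (by positivity) (by linarith)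
  have hbdd : ∀ N, BddAbove (p '' B N) := fun N => ⟨C, by
    rintro _ ⟨x, hx, rfl⟩
    exact hC x hx.1⟩
  set S : ℕ → ℝ := fun N => sSup (p '' B N) with hS
  have hle : ∀ N x, x ∈ B N → p x ≤ S N := fun N x hx => le_csSup (hbdd N) ⟨x, hx, rfl⟩
  have hSb : BddBelow (Set.range S) := ⟨0, by
    rintro _ ⟨N, rfl⟩
    exact (hp0 0).trans (hle N 0 (hB0 N))⟩
  set L : ℝ := ⨅ N, S N with hL
  have hLS : ∀ N, L ≤ S N := fun N => ciInf_le hSb N
  obtain ⟨η, hη, hη2⟩ : ∃ η : ℝ, 0 < η ∧ η = 1 / 400 := ⟨1 / 400, by norm_num, rfl⟩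
  obtain ⟨N0, hN0⟩ : ∃ N0, S N0 < L + η := exists_lt_of_ciInf_lt (by linarith)
  have hpick : ∀ N, ∃ y ∈ B N, L - η < p y := by
    intro N
    have h1 : L - η < S N := by linarith [hLS N]
    obtain ⟨_, ⟨y, hy, rfl⟩, h2⟩ := exists_lt_of_lt_csSup (Set.Nonempty.image p ⟨0, hB0 N⟩) h1
    exact ⟨y, hy, h2⟩
  obtain ⟨y1, hy1B, hy1⟩ := hpick (N0 + 1)
  obtain ⟨N1, -, hN1⟩ := exists_tail hs y1 hη 0
  -- choose N2
  have hWnn : 0 ≤ ∑ i ∈ Finset.range N1, w i := Finset.sum_nonneg fun i _ => hw i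
  obtain ⟨n2, hn2⟩ := exists_nat_gt ((∑ i ∈ Finset.range N1, w i) / η)
  set N2 : ℕ := max n2 (max N1 (N0 + 1)) with hN2
  obtain ⟨y2, hy2B, hy2⟩ := hpick N2
  have hhead2 : ∑ i ∈ Finset.range N1, w i * ‖φ i y2‖ < η := by
    have hN2pos : (0 : ℝ) < (N2 : ℝ) + 1 := by positivity
    calc ∑ i ∈ Finset.range N1, w i * ‖φ i y2‖
        ≤ ∑ i ∈ Finset.range N1, w i * (1 / ((N2 : ℝ) + 1)) := by
          refine Finset.sum_le_sum fun i hi => mul_le_mul_of_nonneg_left ?_ (hw i)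
          refine (hy2B.2 i ?_).le
          exact (Finset.mem_range.1 hi).trans_le ((le_max_left _ _).trans (le_max_right _ _))
      _ = (∑ i ∈ Finset.range N1, w i) / ((N2 : ℝ) + 1) := by
          rw [← Finset.sum_mul, mul_one_div]
      _ < η := by
          rw [div_lt_iff₀ hN2pos]
          rw [div_lt_iff₀ hη] at hn2
          have : (n2 : ℝ) ≤ N2 := by exact_mod_cast le_max_left _ _
          nlinarith
  have hy2B' : y2 ∈ B (N0 + 1) := hBmono ((le_max_right _ _).trans (le_max_right _ _)) hy2B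
  -- the two averages
  have main : ∀ σ : 𝕜, ‖σ‖ = 1 → 73 / 100 < ‖f ((1 / 2 : 𝕜) • (y1 + σ • y2))‖ := by
    intro σ hσ
    set z : X := (1 / 2 : 𝕜) • (y1 + σ • y2) with hz
    have hhalf : ‖(1 / 2 : 𝕜)‖ = 1 / 2 := by
      rw [norm_div, norm_one, RCLike.norm_ofNat]
    have hφz : ∀ i, φ i z = (1 / 2 : 𝕜) • (φ i y1 + σ • φ i y2) := fun i => by
      rw [hz, map_smul, map_add, map_smul]
    have hnz : ∀ i, ‖φ i z‖ = 1 / 2 * ‖φ i y1 + σ • φ i y2‖ := fun i => by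
      rw [hφz, norm_smul, hhalf]
    have hσn : ∀ i, ‖σ • φ i y2‖ = ‖φ i y2‖ := fun i => by rw [norm_smul, hσ, one_mul]
    have hz1 : ‖z‖ ≤ 1 := by
      rw [hz, norm_smul, hhalf]
      have := norm_add_le y1 (σ • y2)
      rw [norm_smul, hσ, one_mul] at this
      linarith [hy1B.1, hy2B.1]
    have hup : ∀ i, ‖φ i z‖ ≤ 1 / 2 * (‖φ i y1‖ + ‖φ i y2‖) := fun i => by
      rw [hnz]
      have := norm_add_le (φ i y1) (σ • φ i y2)
      rw [hσn] at this
      linarith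
    have hlo1 : ∀ i, 1 / 2 * (‖φ i y1‖ - ‖φ i y2‖) ≤ ‖φ i z‖ := fun i => by
      rw [hnz]
      have := norm_sub_norm_le (φ i y1) (-(σ • φ i y2))
      rw [norm_neg, hσn, sub_neg_eq_add] at this
      linarith
    have hlo2 : ∀ i, 1 / 2 * (‖φ i y2‖ - ‖φ i y1‖) ≤ ‖φ i z‖ := fun i => by
      rw [hnz]
      have := norm_sub_norm_le (σ • φ i y2) (-(φ i y1))
      rw [norm_neg, hσn, sub_neg_eq_add, add_comm (σ • φ i y2)] at this
      linarith
    have hpz : L - 3 * η < p z := by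
      have e0 : p z = _ := split hs z N1
      have e1 : p y1 = _ := split hs y1 N1
      have e2 : p y2 = _ := split hs y2 N1
      have a1 : 1 / 2 * (∑ i ∈ Finset.range N1, w i * ‖φ i y1‖
          - ∑ i ∈ Finset.range N1, w i * ‖φ i y2‖) ≤ ∑ i ∈ Finset.range N1, w i * ‖φ i z‖ := by
        rw [← Finset.sum_sub_distrib, Finset.mul_sum]
        refine Finset.sum_le_sum fun i _ => ?_
        have := mul_le_mul_of_nonneg_left (hlo1 i) (hw i)
        linarith
      have a2 : ∑' i, w (i + N1) * ‖φ (i + N1) y2‖ ≤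
          2 * ∑' i, w (i + N1) * ‖φ (i + N1) z‖ + ∑' i, w (i + N1) * ‖φ (i + N1) y1‖ := by
        refine tsum_le3 (tail_summable hs z N1) (tail_summable hs y1 N1)
          (tail_summable hs y2 N1) 2 fun i => ?_
        have := mul_le_mul_of_nonneg_left (hlo2 (i + N1)) (hw (i + N1))
        linarith
      linarith
    -- a point near z
    obtain ⟨N3, hN3a, hN3⟩ := exists_tail hs z hη N0
    set W : ℝ := ∑ i ∈ Finset.range N3, w i with hW
    have hWn : 0 ≤ W := Finset.sum_nonneg fun i _ => hw i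
    set δ : ℝ := min (1 / ((N0 : ℝ) + 1) - 1 / ((N0 : ℝ) + 2)) (η / (W + 1)) with hδ
    have hδ0 : 0 < δ := by
      refine lt_min (sub_pos.2 ?_) (by positivity)
      exact one_div_lt_one_div_of_lt (by positivity) (by linarith)
    obtain ⟨y, hy, hyi, hfy⟩ := hg z hz1 N3 δ hδ0
    have hyB : y ∈ B N0 := by
      refine ⟨hy, fun i hi => ?_⟩
      have b1 := hyi i (hi.trans_le hN3a)
      have b2 := hup i
      have b3 := hy1B.2 i (hi.trans (Nat.lt_succ_self _))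
      have b4 := hy2B'.2 i (hi.trans (Nat.lt_succ_self _))
      have b5 : ‖φ i y‖ ≤ ‖φ i (y - z)‖ + ‖φ i z‖ := by
        have := norm_add_le (φ i (y - z)) (φ i z)
        rwa [← map_add, sub_add_cancel] at this
      have b6 : δ ≤ 1 / ((N0 : ℝ) + 1) - 1 / ((N0 : ℝ) + 2) := min_le_left _ _
      have b7 : (((N0 + 1 : ℕ) : ℝ) + 1) = (N0 : ℝ) + 2 := by push_cast; ring
      rw [b7] at b3 b4
      linarith
    have c1 : p y < L + η := (hle N0 y hyB).trans_lt hN0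
    have c2 : ∑ i ∈ Finset.range N3, w i * ‖φ i (y - z)‖ ≤ η := by
      calc ∑ i ∈ Finset.range N3, w i * ‖φ i (y - z)‖
          ≤ ∑ i ∈ Finset.range N3, w i * (η / (W + 1)) := by
            refine Finset.sum_le_sum fun i hi => mul_le_mul_of_nonneg_left ?_ (hw i)
            exact ((hyi i (Finset.mem_range.1 hi)).trans_le (min_le_right _ _)).le
        _ = W * (η / (W + 1)) := by rw [← Finset.sum_mul]
        _ ≤ η := by
            rw [mul_div_assoc', div_le_iff₀ (by positivity)]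
            nlinarith
    have c3 : ∑ i ∈ Finset.range N3, w i * ‖φ i z‖ ≤
        ∑ i ∈ Finset.range N3, w i * ‖φ i y‖ + ∑ i ∈ Finset.range N3, w i * ‖φ i (y - z)‖ := by
      rw [← Finset.sum_add_distrib]
      refine Finset.sum_le_sum fun i _ => ?_
      have b5 : ‖φ i z‖ ≤ ‖φ i y‖ + ‖φ i (y - z)‖ := by
        have := norm_sub_le (φ i y) (φ i (y - z))
        rwa [← map_sub, sub_sub_cancel] at this
      have := mul_le_mul_of_nonneg_left b5 (hw i)
      linarith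
    have d0 : p z = _ := split hs z N3
    have d1 : p y = _ := split hs y N3
    have c4 : ∑' i, w (i + N3) * ‖φ (i + N3) y‖ ≤ 6 * η := by linarith
    have d2 : p (y - z) = _ := split hs (y - z) N3
    have c5 : ∑' i, w (i + N3) * ‖φ (i + N3) (y - z)‖ ≤
        ∑' i, w (i + N3) * ‖φ (i + N3) y‖ + ∑' i, w (i + N3) * ‖φ (i + N3) z‖ := by
      have := tsum_le3 (tail_summable hs y N3) (tail_summable hs z N3)
        (tail_summable hs (y - z) N3) 1 fun i => ?_
      · rwa [one_mul] at this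
      · have b5 : ‖φ (i + N3) (y - z)‖ ≤ ‖φ (i + N3) y‖ + ‖φ (i + N3) z‖ := by
          rw [map_sub]; exact norm_sub_le _ _
        have := mul_le_mul_of_nonneg_left b5 (hw (i + N3))
        linarith
    have c6 : ‖f (y - z)‖ ≤ 8 * η := by
      have := hfw (y - z)
      have h9 : ‖f (y - z)‖ ≤ p (y - z) := this
      linarith
    have c7 : ‖f y‖ ≤ ‖f (y - z)‖ + ‖f z‖ := by
      have := norm_add_le (f (y - z)) (f z)
      rwa [← map_add, sub_add_cancel] at this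
    linarith
  -- parallelogram law
  have m1 := main 1 norm_one
  have m2 := main (-1) (by rw [norm_neg, norm_one])
  have hhalf : ‖(1 / 2 : 𝕜)‖ = 1 / 2 := by
    rw [norm_div, norm_one, RCLike.norm_ofNat]
  rw [one_smul, map_smul, norm_smul, hhalf, map_add] at m1
  rw [neg_smul, one_smul, map_smul, norm_smul, hhalf, ← sub_eq_add_neg, map_sub] at m2
  have hpl := parallelogram_law_with_norm 𝕜 (f y1) (f y2)
  have hb1 : ‖f y1‖ ≤ 1 := by
    have := f.le_of_opNorm_le hf1 y1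
    linarith [hy1B.1]
  have hb2 : ‖f y2‖ ≤ 1 := by
    have := f.le_of_opNorm_le hf1 y2
    linarith [hy2B.1]
  have q1 : ‖f y1‖ * ‖f y1‖ ≤ 1 := by nlinarith [norm_nonneg (f y1)]
  have q2 : ‖f y2‖ * ‖f y2‖ ≤ 1 := by nlinarith [norm_nonneg (f y2)]
  nlinarith [norm_nonneg (f y1 + f y2), norm_nonneg (f y1 - f y2)]

end

end Pool.Agent.N311.SAD
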