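import Pool.Agent.N311.SAD.Baire
import Pool.Agent.N311.SAD.Core

/-!
# Subspaces of spaces with an unconditional basis fail the super alternative Daugavet property
-/

set_option autoImplicit false

open Filter Topology Metric

namespace Pool.Agent.N311.SAD

variable {𝕜 X Z : Type*} [RCLike 𝕜] [NormedAddCommGroup X] [NormedSpace 𝕜 X]
  [NormedAddCommGroup Z] [NormedSpace 𝕜 Z]

theorem weak_continuous (F : StrongDual 𝕜 X) :
    Continuous fun x : WeakSpace 𝕜 X => F ((toWeakSpace 𝕜 X).symm x) := by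
  have h : Continuous fun (x : WeakSpace 𝕜 X) (F : X →L[𝕜] 𝕜) => F ((toWeakSpace 𝕜 X).symm x) :=
    continuous_induced_dom
  exact (continuous_pi_iff.mp h) F

/-- coordinate boxes -/
def box (φ : ℕ → StrongDual 𝕜 X) (p : ℕ × (ℕ →₀ ℕ) × ℕ) : Set (WeakSpace 𝕜 X) :=
  {x | ∀ i < p.1, ‖φ i ((toWeakSpace 𝕜 X).symm x) - TopologicalSpace.denseSeq 𝕜 (p.2.1 i)‖
    < 1 / ((p.2.2 : ℝ) + 1)}

theorem box_open (φ : ℕ → StrongDual 𝕜 X) (p : ℕ × (ℕ →₀ ℕ) × ℕ) : IsOpen (box φ p) := by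
  have h : box φ p = ⋂ i ∈ Finset.range p.1,
      {x : WeakSpace 𝕜 X | ‖φ i ((toWeakSpace 𝕜 X).symm x) -
        TopologicalSpace.denseSeq 𝕜 (p.2.1 i)‖ < 1 / ((p.2.2 : ℝ) + 1)} := by
    ext x
    simp [box]
  rw [h]
  refine isOpen_biInter_finset fun i _ => ?_
  refine isOpen_lt ?_ continuous_const
  exact ((weak_continuous (φ i)).sub continuous_const).norm

/-- Every point lies in arbitrarily small boxes. -/
theorem exists_box (φ : ℕ → StrongDual 𝕜 X) (x : X) (N : ℕ) {δ : ℝ} (hδ : 0 < δ) :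
    ∃ p : ℕ × (ℕ →₀ ℕ) × ℕ, toWeakSpace 𝕜 X x ∈ box φ p ∧
      ∀ y : X, toWeakSpace 𝕜 X y ∈ box φ p → ∀ i < N, ‖φ i (y - x)‖ < δ := by
  classical
  obtain ⟨k, hk⟩ := exists_nat_one_div_lt (half_pos hδ)
  have hk0 : (0 : ℝ) < 1 / ((k : ℝ) + 1) := by positivity
  have h : ∀ i, ∃ n : ℕ, ‖φ i x - TopologicalSpace.denseSeq 𝕜 n‖ < 1 / ((k : ℝ) + 1) := fun i => by
    obtain ⟨n, hn⟩ := (TopologicalSpace.denseRange_denseSeq 𝕜).exists_dist_lt (φ i x) hk0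
    exact ⟨n, by rw [← dist_eq_norm]; exact hn⟩
  choose r hr using h
  let q : ℕ →₀ ℕ := Finsupp.onFinset (Finset.range N) (fun i => if i < N then r i else 0)
    (fun i hi => by rw [Finset.mem_range]; by_contra h; exact hi (if_neg h))
  have hq : ∀ i < N, q i = r i := fun i hi => by
    rw [Finsupp.onFinset_apply, if_pos hi]
  refine ⟨(N, q, k), fun i hi => ?_, fun y hy i hi => ?_⟩
  · rw [LinearEquiv.symm_apply_apply]
    have := hr i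
    rw [← hq i hi] at this
    exact this
  · have h1 : ‖φ i ((toWeakSpace 𝕜 X).symm (toWeakSpace 𝕜 X y)) -
        TopologicalSpace.denseSeq 𝕜 (q i)‖ < 1 / ((k : ℝ) + 1) := hy i hi
    rw [LinearEquiv.symm_apply_apply, hq i hi] at h1
    have h2 := hr i
    rw [norm_sub_rev] at h2
    have h3 := norm_add_le (φ i y - TopologicalSpace.denseSeq 𝕜 (r i))
      (TopologicalSpace.denseSeq 𝕜 (r i) - φ i x)
    rw [sub_add_sub_cancel, ← map_sub] at h3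
    linarith

/-- Extension of a functional along an isomorphic embedding. -/
theorem exists_ext (T : X →L[𝕜] Z) {c : ℝ} (hc : 0 < c) (hT : ∀ x, c * ‖x‖ ≤ ‖T x‖)
    (f : StrongDual 𝕜 X) : ∃ F : StrongDual 𝕜 Z, ∀ x, F (T x) = f x := by
  have hinj : Function.Injective (T : X →ₗ[𝕜] Z) := by
    rw [← LinearMap.ker_eq_bot, LinearMap.ker_eq_bot']
    intro x hx
    have h1 := hT x
    have h2 : T x = 0 := hx
    rw [h2, norm_zero] at h1
    have h3 : ‖x‖ ≤ 0 := by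
      by_contra h
      push Not at h
      nlinarith
    exact norm_le_zero_iff.1 h3
  let E := LinearEquiv.ofInjective (T : X →ₗ[𝕜] Z) hinj
  let g : LinearMap.range (T : X →ₗ[𝕜] Z) →ₗ[𝕜] 𝕜 := (f : X →ₗ[𝕜] 𝕜).comp E.symm.toLinearMap
  have hg : ∀ z, ‖g z‖ ≤ (‖f‖ / c) * ‖z‖ := by
    intro z
    obtain ⟨x, rfl⟩ := E.surjective z
    have h1 : g (E x) = f x := by simp [g]
    have h2 : ‖E x‖ = ‖T x‖ := rfl
    rw [h1, h2]
    have h3 := f.le_opNorm x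
    have h4 := hT x
    calc ‖f x‖ ≤ ‖f‖ * ‖x‖ := h3
      _ = ‖f‖ / c * (c * ‖x‖) := by field_simp
      _ ≤ ‖f‖ / c * ‖T x‖ := mul_le_mul_of_nonneg_left h4 (by positivity)
  obtain ⟨F, hF, -⟩ := exists_extension_norm_eq (LinearMap.range (T : X →ₗ[𝕜] Z))
    (g.mkContinuous _ hg)
  refine ⟨F, fun x => ?_⟩
  have h1 := hF (E x)
  have h2 : ((E x : LinearMap.range (T : X →ₗ[𝕜] Z)) : Z) = T x := rfl
  rw [h2] at h1
  rw [h1, LinearMap.mkContinuous_apply]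
  simp [g]

/-- The absolute value functional is bounded. -/
theorem exists_bound [CompleteSpace X] {φ : ℕ → StrongDual 𝕜 X} {a : ℕ → 𝕜}
    (hs : ∀ x, Summable fun i => ‖a i‖ * ‖φ i x‖) :
    ∃ C : ℝ, ∀ x, ‖x‖ ≤ 1 → ∑' i, ‖a i‖ * ‖φ i x‖ ≤ C := by
  classical
  let J := Finset ℕ × (ℕ → Metric.sphere (0 : 𝕜) 1)
  let g : J → StrongDual 𝕜 X := fun j => ∑ i ∈ j.1, ((j.2 i : 𝕜) * a i) • φ i
  have hgx : ∀ j x, g j x = ∑ i ∈ j.1, ((j.2 i : 𝕜) * a i) * φ i x := fun j x => by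
    simp [g]
  obtain ⟨C, hC⟩ := banach_steinhaus (g := g) (fun x => ⟨∑' i, ‖a i‖ * ‖φ i x‖, fun j => by
    rw [hgx]
    refine (norm_sum_le _ _).trans ?_
    refine le_trans (le_of_eq ?_) ((hs x).sum_le_tsum j.1 fun i _ => by positivity)
    refine Finset.sum_congr rfl fun i _ => ?_
    have : ‖((j.2 i : 𝕜))‖ = 1 := by simp
    rw [norm_mul, norm_mul, this, one_mul]⟩)
  refine ⟨C, fun x hx => ?_⟩
  refine Real.tsum_le_of_sum_le (fun i => by positivity) fun S => ?_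
  have hθ : ∀ i, ∃ θ : Metric.sphere (0 : 𝕜) 1, ((‖a i * φ i x‖ : ℝ) : 𝕜) = θ * (a i * φ i x) :=
    fun i => by
      obtain ⟨θ, hθ, h⟩ := RCLike.exists_norm_eq_mul_self (a i * φ i x)
      exact ⟨⟨θ, by simpa using hθ⟩, h⟩
  choose θ hθ using hθ
  have h1 := (g (S, θ)).le_of_opNorm_le (hC (S, θ)) x
  rw [hgx] at h1
  have h2 : ∑ i ∈ S, ((θ i : 𝕜) * a i) * φ i x = ((∑ i ∈ S, ‖a i‖ * ‖φ i x‖ : ℝ) : 𝕜) := by
    rw [RCLike.ofReal_sum]
    refine Finset.sum_congr rfl fun i _ => ?_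
    rw [← norm_mul, hθ i, mul_assoc]
  have h3 : ‖((∑ i ∈ S, ‖a i‖ * ‖φ i x‖ : ℝ) : 𝕜)‖ ≤ C * ‖x‖ := by
    rw [← h2]; exact h1
  rw [RCLike.norm_ofReal] at h3
  have hC0 : 0 ≤ C := (norm_nonneg _).trans (hC (∅, θ))
  calc ∑ i ∈ S, ‖a i‖ * ‖φ i x‖ ≤ |∑ i ∈ S, ‖a i‖ * ‖φ i x‖| := le_abs_self _
    _ ≤ C * ‖x‖ := h3
    _ ≤ C := by nlinarith

/-- Abstract form: an infinite-dimensional Banach space embedded in a space in which every vector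
is the unconditional sum of its coordinates cannot satisfy the super ADP condition on weakly open
sets. -/
theorem abstract [CompleteSpace X] (hX : ∃ x : X, x ≠ 0) (e : ℕ → Z) (κ : ℕ → StrongDual 𝕜 Z)
    (he : ∀ z, HasSum (fun i => κ i z • e i) z)
    (T : X →L[𝕜] Z) {c : ℝ} (hc : 0 < c) (hT : ∀ x, c * ‖x‖ ≤ ‖T x‖)
    (hsup : ∀ x : X, ‖x‖ = 1 → ∀ W : Set (WeakSpace 𝕜 X), IsOpen W →
      (∃ y : X, ‖y‖ ≤ 1 ∧ toWeakSpace 𝕜 X y ∈ W) → ∀ ε : ℝ, 0 < ε →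
        ∃ y : X, ‖y‖ ≤ 1 ∧ toWeakSpace 𝕜 X y ∈ W ∧ ∃ θ : 𝕜, ‖θ‖ = 1 ∧ 2 - ε < ‖x + θ • y‖) :
    False := by
  classical
  set φ : ℕ → StrongDual 𝕜 X := fun i => (κ i).comp T with hφ
  let ι := {p : ℕ × (ℕ →₀ ℕ) × ℕ // ∃ y : X, ‖y‖ ≤ 1 ∧ toWeakSpace 𝕜 X y ∈ box φ p}
  let A : ι → Set X := fun p => {y | ‖y‖ ≤ 1 ∧ toWeakSpace 𝕜 X y ∈ box φ p.1}
  obtain ⟨f, hf1, hf⟩ := exists_functional (𝕜 := 𝕜) hX A (fun p y hy => hy.1)
    (fun p x hx ε hε => by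
      obtain ⟨y, h1, h2, h3⟩ := hsup x hx (box φ p.1) (box_open φ p.1) p.2 ε hε
      exact ⟨y, ⟨h1, h2⟩, h3⟩) (r := 3 / 4) (by norm_num)
  obtain ⟨F, hF⟩ := exists_ext T hc hT f
  have hsum : ∀ x, HasSum (fun i => φ i x * F (e i)) (f x) := by
    intro x
    have h1 := (he (T x)).mapL F
    rw [hF] at h1
    refine h1.congr_fun ?_ |> id
    intro i
    simp [hφ]
  have hs : ∀ x, Summable fun i => ‖F (e i)‖ * ‖φ i x‖ := by
    intro x
    have h1 := (hsum x).summable.norm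
    refine h1.congr fun i => ?_
    rw [norm_mul, mul_comm]
  obtain ⟨C, hC⟩ := exists_bound hs
  refine core (w := fun i => ‖F (e i)‖) (φ := φ) (fun i => norm_nonneg _) hs hC f hf1.le ?_ ?_
  · intro x
    rw [← (hsum x).tsum_eq]
    refine (norm_tsum_le_tsum_norm (hsum x).summable.norm).trans (le_of_eq ?_)
    refine tsum_congr fun i => ?_
    rw [norm_mul, mul_comm]
  · intro x hx N δ hδ
    obtain ⟨p, hp1, hp2⟩ := exists_box φ x N hδ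
    obtain ⟨y, ⟨hy1, hy2⟩, hy3⟩ := hf ⟨p, x, hx, hp1⟩
    exact ⟨y, hy1, fun i hi => hp2 y hy2 i hi, hy3⟩

end Pool.Agent.N311.SAD
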